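import Mathlib
import Pool.Agent.Helper300.JonesT

open Set Topology

namespace Pool.Agent.Results.MP_3a3191_gt.Indecomposable

/-- Jones's set function of the space `S`. -/
def jonesT {S : Type*} [TopologicalSpace S] (A : Set S) : Set S :=
  {p : S | ∃ W : Set S, IsClosed W ∧ IsConnected W ∧ p ∈ interior W ∧ W ∩ A = ∅}ᶜ

/-- `T` is continuous for `S`: the map `A ↦ T A` is continuous on the nonempty closed sets,
for the Vietoris topology. -/
def JonesContinuous (S : Type*) [TopologicalSpace S] : Prop :=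
  @ContinuousOn (Set S) (Set S) (TopologicalSpace.vietoris S) (TopologicalSpace.vietoris S)
    jonesT {A : Set S | IsClosed A ∧ A.Nonempty}

/-- `S` is the union of two proper subcontinua. -/
def Decomposable (S : Type*) [TopologicalSpace S] : Prop :=
  ∃ A B : Set S, IsClosed A ∧ IsConnected A ∧ A ≠ univ ∧
    IsClosed B ∧ IsConnected B ∧ B ≠ univ ∧ A ∪ B = univ

theorem jonesT_eq {S : Type*} [TopologicalSpace S] :
    (jonesT : Set S → Set S) = Pool.Agent.Helper300.JonesT.T := by
  funext A
  ext p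
  rw [← not_iff_not, Pool.Agent.Helper300.JonesT.notMem_T]
  simp only [jonesT, mem_compl_iff, mem_ofPred_eq, not_not, mem_interior_iff_mem_nhds,
    disjoint_iff_inter_eq_empty]

theorem result (S : Type*) [TopologicalSpace S] [CompactSpace S] [T2Space S] [ConnectedSpace S]
    (hT : JonesContinuous S) (p : S) (hp : (interior (jonesT ({p} : Set S))).Nonempty) :
    ¬ Decomposable S := by
  rw [JonesContinuous, jonesT_eq] at hT
  rw [jonesT_eq] at hp
  have h := Pool.Agent.Helper300.JonesT.LSC_of_continuousOn hT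
  rintro ⟨A, B, hA1, hA2, hA3, hB1, hB2, hB3, hAB⟩
  obtain ⟨x, hx⟩ := nonempty_compl.2 hA3
  obtain ⟨q, hq⟩ := nonempty_compl.2 hB3
  have hqT : q ∈ Pool.Agent.Helper300.JonesT.T ({x} : Set S) := by
    rw [Pool.Agent.Helper300.JonesT.T_eq_univ h hp x]
    exact mem_univ q
  have hAq : A ∈ 𝓝 q := by
    filter_upwards [hB1.isOpen_compl.mem_nhds hq] with y hy
    have : y ∈ A ∪ B := by rw [hAB]; exact mem_univ y
    exact this.resolve_right hy
  obtain ⟨z, hz1, hz2⟩ := hqT A hA1 hA2 hAq
  rw [mem_singleton_iff.1 hz2] at hz1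
  exact hx hz1

end Pool.Agent.Results.MP_3a3191_gt.Indecomposable
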